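import Pool.Agent.X179.SD.Extra
import Pool.Agent.X179.SD.Count

/-!
# Sign choices summing to a target: the dimension can be zero

In every dimension `d ≥ 2` there is a null sequence for which every target is attained by some
choice of signs, while for every target the set of these choices has Hausdorff dimension `0`.
-/

namespace Pool.Agent.Results.MP_b48a23_an.DimensionZero

open Filter Topology MeasureTheory Set
open scoped ENNReal NNReal

/-- the space of the sign sequences; `ℤˣ = {1, -1}` -/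
def Om : Type := ℕ → ℤˣ

open Classical in
/-- the metric `2 ^ (-min {n : ε n ≠ δ n})`, where the sequences are indexed by `n = 1, 2, …`:
the sign with index `n + 1` is `ε n` in Lean -/
noncomputable def rho (e f : Om) : ℝ :=
  if e = f then 0 else (1 / 2) ^ (sInf {n | e n ≠ f n} + 1)

/-- the sign sequences `ε` with `∑ εₙ aₙ = L` -/
def E {d : ℕ} (a : ℕ → EuclideanSpace ℝ (Fin d)) (L : EuclideanSpace ℝ (Fin d)) : Set Om :=
  {e | Tendsto (fun n => ∑ i ∈ Finset.range n, ((e i : ℤ) : ℝ) • a i) atTop (𝓝 L)}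

theorem rho_le {e f : Om} {n : ℕ} (h : ∀ i < n, e i = f i) : rho e f ≤ (1 / 2) ^ (n + 1) := by
  unfold rho
  split_ifs with h1
  · positivity
  · apply pow_le_pow_of_le_one (by norm_num) (by norm_num)
    have hne : {n | e n ≠ f n}.Nonempty := by
      by_contra hc
      rw [Set.not_nonempty_iff_eq_empty] at hc
      apply h1
      funext n
      by_contra hn
      have : n ∈ ({n | e n ≠ f n} : Set ℕ) := hn
      rw [hc] at this
      exact this
    have h2 : e (sInf {n | e n ≠ f n}) ≠ f (sInf {n | e n ≠ f n}) := Nat.sInf_mem hne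
    by_contra h3
    exact h2 (h _ (by omega))

theorem eq_of_lt {e f : Om} {i : ℕ} (h : i < sInf {n | e n ≠ f n}) : e i = f i := by
  by_contra hc
  exact Nat.notMem_of_lt_sInf h hc

noncomputable instance : MetricSpace Om where
  dist := rho
  dist_self e := by simp [rho]
  dist_comm e f := by
    unfold rho
    have h2 : ({n | e n ≠ f n} : Set ℕ) = {n | f n ≠ e n} := by ext n; exact ne_comm
    by_cases h : e = f
    · subst h; rfl
    · rw [if_neg h, if_neg (Ne.symm h), h2]
  dist_triangle e f g := by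
    have nn : ∀ e f : Om, 0 ≤ rho e f := fun e f => by unfold rho; split_ifs <;> positivity
    by_cases h1 : e = f
    · subst h1; have := nn e e; linarith [nn e e]
    by_cases h2 : f = g
    · subst h2; linarith [nn f f]
    have h3 : rho e g ≤ (1 / 2) ^ (min (sInf {n | e n ≠ f n}) (sInf {n | f n ≠ g n}) + 1) := by
      apply rho_le
      intro i hi
      rw [lt_min_iff] at hi
      rw [eq_of_lt hi.1, eq_of_lt hi.2]
    have a1 : rho e f = (1 / 2) ^ (sInf {n | e n ≠ f n} + 1) := by unfold rho; rw [if_neg h1]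
    have a2 : rho f g = (1 / 2) ^ (sInf {n | f n ≠ g n} + 1) := by unfold rho; rw [if_neg h2]
    rcases min_choice (sInf {n | e n ≠ f n}) (sInf {n | f n ≠ g n}) with h | h <;> rw [h] at h3
    · linarith [nn f g]
    · linarith [nn e f]
  eq_of_dist_eq_zero {e f} h := by
    by_contra hc
    change rho e f = 0 at h
    unfold rho at h
    rw [if_neg hc] at h
    have : (0 : ℝ) < (1 / 2) ^ (sInf {n | e n ≠ f n} + 1) := by positivity
    linarith

noncomputable instance : MeasurableSpace Om := borel Om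
instance : BorelSpace Om := ⟨rfl⟩

open Pool.Agent.X179.SD

theorem edist_le {e f : Om} {n : ℕ} (h : ∀ i < n, e i = f i) :
    edist e f ≤ ENNReal.ofReal ((1 / 2) ^ n) := by
  rw [edist_dist]
  apply ENNReal.ofReal_le_ofReal
  refine (rho_le h).trans ?_
  exact pow_le_pow_of_le_one (by norm_num) (by norm_num) (Nat.le_succ n)

/-- the sets `F` as sets of sign sequences -/
def FO [Dm] (L1 L2 : ℝ) (j : ℕ) : Set Om := F L1 L2 j

theorem coverO [Dm] (L1 L2 : ℝ) {j k : ℕ} (hk : j ≤ k) :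
    ∃ t : (Fin (M k) → ℤˣ) × Fin (2 ^ (k + 3) + 1) → Set Om,
      FO L1 L2 j ⊆ ⋃ c, t c ∧ ∀ c, ∀ e ∈ t c, ∀ e' ∈ t c, ∀ i < Q k, e i = e' i :=
  cover L1 L2 hk

theorem hausdorff_F [Dm] (L1 L2 : ℝ) (j : ℕ) (s : ℝ) (hs : 0 < s) :
    μH[s] (FO L1 L2 j) = 0 := by
  choose t ht1 ht2 using fun k => coverO L1 L2 (Nat.le_add_right j k)
  have hdiam : ∀ k c, Metric.ediam (t k c) ≤ ENNReal.ofReal ((1 / 2) ^ (Q (j + k))) :=
    fun k c => Metric.ediam_le fun e he f hf => edist_le (ht2 k c e he f hf)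
  have hQ : ∀ k, (k + 1) * (M k + k + 4) ≤ Q k := fun k => by
    unfold Q I; omega
  have hQ' : ∀ k, k ≤ Q k := fun k => by
    have := hQ k; nlinarith [Nat.zero_le (M k), Nat.zero_le (k * M k), Nat.zero_le (k * k)]
  have hr : Tendsto (fun k => ENNReal.ofReal ((1 / 2 : ℝ) ^ (Q (j + k)))) atTop (𝓝 0) := by
    have h1 : Tendsto (fun k : ℕ => (1 / 2 : ℝ) ^ k) atTop (𝓝 0) :=
      tendsto_pow_atTop_nhds_zero_of_lt_one (by norm_num) (by norm_num)
    have h2 := ENNReal.tendsto_ofReal h1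
    rw [ENNReal.ofReal_zero] at h2
    refine tendsto_of_tendsto_of_tendsto_of_le_of_le tendsto_const_nhds h2
      (fun k => zero_le) fun k => ENNReal.ofReal_le_ofReal ?_
    apply pow_le_pow_of_le_one (by norm_num) (by norm_num)
    have := hQ' (j + k); omega
  have hmain := Measure.hausdorffMeasure_le_liminf_sum s (FO L1 L2 j)
    (fun k => ENNReal.ofReal ((1 / 2 : ℝ) ^ (Q (j + k)))) hr t
    (Eventually.of_forall fun k c => hdiam k c) (Eventually.of_forall fun k => ht1 k)
  have hbound : ∀ᶠ k in atTop, ∑ c, Metric.ediam (t k c) ^ s ≤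
      ENNReal.ofReal ((1 / 2) ^ k) := by
    obtain ⟨k₀, hk₀⟩ := exists_nat_ge (2 / s)
    filter_upwards [eventually_ge_atTop k₀] with k hk
    set m : ℕ := M (j + k) + (j + k) + 4 with hm
    have h1 : ∀ c, Metric.ediam (t k c) ^ s ≤ ENNReal.ofReal ((1 / 2) ^ (2 * m)) := by
      intro c
      refine (ENNReal.rpow_le_rpow (hdiam k c) hs.le).trans ?_
      rw [ENNReal.ofReal_rpow_of_nonneg (by positivity) hs.le]
      apply ENNReal.ofReal_le_ofReal
      rw [← Real.rpow_natCast, ← Real.rpow_mul (by norm_num), ← Real.rpow_natCast]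
      apply Real.rpow_le_rpow_of_exponent_ge (by norm_num) (by norm_num)
      have a1 : (((j + k + 1) * m : ℕ) : ℝ) ≤ Q (j + k) := by exact_mod_cast hQ (j + k)
      have a2 : 2 ≤ ((j + k + 1 : ℕ) : ℝ) * s := by
        have : (k₀ : ℝ) ≤ ((j + k + 1 : ℕ) : ℝ) := by exact_mod_cast (by omega : k₀ ≤ j + k + 1)
        rw [div_le_iff₀ hs] at hk₀
        nlinarith
      push_cast at a1 a2 ⊢
      have m0 : (0 : ℝ) ≤ m := Nat.cast_nonneg m
      nlinarith
    refine (Finset.sum_le_sum fun c _ => h1 c).trans ?_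
    rw [Finset.sum_const, Finset.card_univ, nsmul_eq_mul,
      ← ENNReal.ofReal_natCast, ← ENNReal.ofReal_mul (by positivity)]
    apply ENNReal.ofReal_le_ofReal
    have h2 : Fintype.card ((Fin (M (j + k)) → ℤˣ) × Fin (2 ^ (j + k + 3) + 1)) ≤ 2 ^ m := by
      rw [Fintype.card_prod, Fintype.card_fin, Fintype.card_fun, Fintype.card_fin]
      have : Fintype.card ℤˣ = 2 := rfl
      rw [this, hm, add_assoc (M (j + k)), pow_add 2 (M (j + k))]
      apply Nat.mul_le_mul_left
      have : 2 ^ (j + k + 4) = 2 * 2 ^ (j + k + 3) := by rw [pow_succ 2 (j + k + 3)]; ring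
      have : 1 ≤ 2 ^ (j + k + 3) := Nat.one_le_two_pow
      omega
    have h3 : ((Fintype.card ((Fin (M (j + k)) → ℤˣ) × Fin (2 ^ (j + k + 3) + 1)) : ℕ) : ℝ) ≤
        2 ^ m := by exact_mod_cast h2
    calc _ ≤ (2 : ℝ) ^ m * (1 / 2) ^ (2 * m) := mul_le_mul_of_nonneg_right h3 (by positivity)
      _ = (1 / 2) ^ m := by
        rw [two_mul, pow_add (1 / 2 : ℝ), ← mul_assoc, ← mul_pow]; norm_num
      _ ≤ (1 / 2) ^ k := pow_le_pow_of_le_one (by norm_num) (by norm_num) (by omega)
  have hz : Tendsto (fun k : ℕ => ENNReal.ofReal ((1 / 2) ^ k)) atTop (𝓝 0) := by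
    have h1 : Tendsto (fun k : ℕ => (1 / 2 : ℝ) ^ k) atTop (𝓝 0) :=
      tendsto_pow_atTop_nhds_zero_of_lt_one (by norm_num) (by norm_num)
    have h2 := ENNReal.tendsto_ofReal h1
    rwa [ENNReal.ofReal_zero] at h2
  have h0 := hmain.trans (liminf_le_liminf hbound)
  rw [hz.liminf_eq] at h0
  exact le_antisymm h0 zero_le

theorem dim_F [Dm] (L1 L2 : ℝ) (j : ℕ) : dimH (FO L1 L2 j) = 0 := by
  refine le_antisymm (dimH_le fun s h => ?_) zero_le
  by_contra hc
  have hs : 0 < s := by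
    rw [pos_iff_ne_zero]; rintro rfl; exact hc (by simp)
  rw [hausdorff_F L1 L2 j s (by exact_mod_cast hs)] at h
  exact ENNReal.zero_ne_top h

/-- convergence in coordinates -/
theorem conv_iff {d : ℕ} (a : ℕ → EuclideanSpace ℝ (Fin d)) (L : EuclideanSpace ℝ (Fin d))
    (e : ℕ → ℤˣ) :
    Tendsto (fun n => ∑ i ∈ Finset.range n, ((e i : ℤ) : ℝ) • a i) atTop (𝓝 L) ↔
      ∀ j, Tendsto (fun n => ∑ i ∈ Finset.range n, ((e i : ℤ) : ℝ) * a i j) atTop (𝓝 (L j)) := by
  rw [(EuclideanSpace.equiv (Fin d) ℝ).toHomeomorph.isInducing.tendsto_nhds_iff, tendsto_pi_nhds]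
  refine forall_congr' fun j => ?_
  have : ∀ n, ((⇑(EuclideanSpace.equiv (Fin d) ℝ).toHomeomorph ∘
      fun n => ∑ i ∈ Finset.range n, ((e i : ℤ) : ℝ) • a i) n) j =
      ∑ i ∈ Finset.range n, ((e i : ℤ) : ℝ) * a i j := by
    intro n
    simp
  simp only [this]
  exact Iff.rfl

theorem mem_E {d : ℕ} (a : ℕ → EuclideanSpace ℝ (Fin d)) (L : EuclideanSpace ℝ (Fin d))
    (e : Om) : e ∈ E a L ↔
      ∀ j, Tendsto (fun n => ∑ i ∈ Finset.range n, ((e i : ℤ) : ℝ) * a i j) atTop (𝓝 (L j)) :=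
  conv_iff a L e

/-- For every `d ≥ 2` there is a null sequence `a` in `ℝ^d` such that for every target `L` the set
`E a L` of the sign sequences `ε` with `∑ εₙ aₙ = L` is nonempty and has Hausdorff dimension `0`. -/
theorem result (d : ℕ) (hd : 2 ≤ d) : ∃ a : ℕ → EuclideanSpace ℝ (Fin d),
    Tendsto a atTop (𝓝 0) ∧ ∀ L, (E a L).Nonempty ∧ dimH (E a L) = 0 := by
  obtain ⟨D, rfl⟩ : ∃ D, d = D + 2 := ⟨d - 2, by omega⟩
  let _ : Dm := ⟨D⟩
  refine ⟨fun n => WithLp.toLp 2 (Fin.cons (xs n) (Fin.cons (ys n) (zs n))), ?_, fun L => ?_⟩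
  · rw [(EuclideanSpace.equiv (Fin (D + 2)) ℝ).toHomeomorph.isInducing.tendsto_nhds_iff,
      tendsto_pi_nhds]
    have hpow : Tendsto (fun n => (1 / 2 : ℝ) ^ (K n)) atTop (𝓝 0) :=
      (tendsto_pow_atTop_nhds_zero_of_lt_one (by norm_num) (by norm_num)).comp K_tendsto
    intro j
    refine Fin.cases ?_ (fun j => Fin.cases ?_ (fun j => ?_) j) j
    · exact squeeze_zero (fun n => xs_nonneg n) (fun n => xs_le n) hpow
    · exact squeeze_zero (fun n => ys_nonneg n) (fun n => ys_le n) hpow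
    · exact squeeze_zero_norm (fun n => zs_abs n j) one_div_K_tendsto
  · constructor
    · obtain ⟨e, h1, h2, h3⟩ := attained_all (L 0) (L 1) (fun j : Fin D => L j.succ.succ)
      refine ⟨e, (mem_E _ _ _).2 fun j => ?_⟩
      refine Fin.cases ?_ (fun j => Fin.cases ?_ (fun j => ?_) j) j
      · exact h1
      · exact h2
      · exact h3 j
    · have hsub : E (fun n => WithLp.toLp 2 (Fin.cons (xs n) (Fin.cons (ys n) (zs n)))) L ⊆
          ⋃ j : ℕ, FO (L 0) (L 1) j := by
        intro e he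
        have he' := (mem_E _ _ _).1 he
        obtain ⟨j, hj⟩ := mem_F (he' 0) (he' 1)
        exact Set.mem_iUnion.2 ⟨j, hj⟩
      have h2 : dimH (⋃ j : ℕ, FO (L 0) (L 1) j) = 0 := by
        rw [dimH_iUnion]
        simp only [dim_F, iSup_const]
      exact le_antisymm ((dimH_mono hsub).trans_eq h2) zero_le

end Pool.Agent.Results.MP_b48a23_an.DimensionZero
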